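import Pool.Agent.Y254.HK.Stm

set_option autoImplicit false

/-!
# Project HK, task PLC: the number of lines with direction near a line and near a given direction
-/

namespace Pool.Agent.Y484.HK

open Pool.Agent.W46.HD Pool.Agent.Y254HK

theorem card_loc {n d : ℕ} {Ω : Type} {D : Ω → Fin d → ℝ} (hF : IsFam n D) {ρ : ℝ}
    (hρ : 1 ≤ ρ) (T : Finset Ω)
    (h : ∀ ω ∈ T, ∀ ω' ∈ T, ∀ i, |(n : ℝ) * D ω i - n * D ω' i| ≤ 4 * ρ + 1) :
    (T.card : ℝ) ≤ (13 * ρ) ^ d := by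
  classical
  rcases T.eq_empty_or_nonempty with h0 | ⟨ω', hω'⟩
  · rw [h0, Finset.card_empty, Nat.cast_zero]
    positivity
  obtain ⟨m, hm⟩ : ∃ m : ℕ, m = ⌊4 * ρ + 2⌋₊ := ⟨_, rfl⟩
  have hm2 : (m : ℝ) ≤ 4 * ρ + 2 := by
    rw [hm]
    exact Nat.floor_le (by linarith)
  have hm3 : 4 * ρ + 2 < (m : ℝ) + 1 := by
    rw [hm]
    exact Nat.lt_floor_add_one _
  have h1 : T.card ≤ (Fintype.piFinset fun i =>
      Finset.Icc (⌊(n : ℝ) * D ω' i⌋ - (m : ℤ)) (⌊(n : ℝ) * D ω' i⌋ + (m : ℤ))).card := by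
    refine Finset.card_le_card_of_injOn (fun ω i => ⌊(n : ℝ) * D ω i⌋) ?_ ?_
    · intro ω hω
      rw [Finset.mem_coe, Fintype.mem_piFinset]
      intro i
      rw [Finset.mem_Icc]
      beta_reduce
      have h2 := abs_le.1 (h ω hω ω' hω' i)
      have h3 := Int.floor_le ((n : ℝ) * D ω i)
      have h4 := Int.lt_floor_add_one ((n : ℝ) * D ω i)
      have h5 := Int.floor_le ((n : ℝ) * D ω' i)
      have h6 := Int.lt_floor_add_one ((n : ℝ) * D ω' i)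
      constructor
      · have h7 : (⌊(n : ℝ) * D ω' i⌋ : ℝ) - ⌊(n : ℝ) * D ω i⌋ < (m : ℝ) + 1 := by
          linarith [h2.1]
        have h8 : ⌊(n : ℝ) * D ω' i⌋ - ⌊(n : ℝ) * D ω i⌋ < (m : ℤ) + 1 := by exact_mod_cast h7
        omega
      · have h7 : (⌊(n : ℝ) * D ω i⌋ : ℝ) - ⌊(n : ℝ) * D ω' i⌋ < (m : ℝ) + 1 := by
          linarith [h2.2]
        have h8 : ⌊(n : ℝ) * D ω i⌋ - ⌊(n : ℝ) * D ω' i⌋ < (m : ℤ) + 1 := by exact_mod_cast h7
        omega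
    · intro ω _ ω₂ _ he
      exact hF.inj ω ω₂ fun i => congrFun he i
  have h2 : (Fintype.piFinset fun i =>
      Finset.Icc (⌊(n : ℝ) * D ω' i⌋ - (m : ℤ)) (⌊(n : ℝ) * D ω' i⌋ + (m : ℤ))).card =
      (2 * m + 1) ^ d := by
    rw [Fintype.card_piFinset]
    have h3 : ∀ i : Fin d, (Finset.Icc (⌊(n : ℝ) * D ω' i⌋ - (m : ℤ))
        (⌊(n : ℝ) * D ω' i⌋ + (m : ℤ))).card = 2 * m + 1 := by
      intro i
      rw [Int.card_Icc]
      omega
    rw [Finset.prod_congr rfl fun i _ => h3 i, Finset.prod_const, Finset.card_univ,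
      Fintype.card_fin]
  rw [h2] at h1
  have h3 : (T.card : ℝ) ≤ (2 * (m : ℝ) + 1) ^ d := by exact_mod_cast h1
  refine h3.trans (pow_le_pow_left₀ (by positivity) ?_ d)
  linarith

theorem t_plc : S_PLC := by
  classical
  intro d
  refine ⟨4 * 13 ^ d, by positivity, ?_⟩
  intro n Ω _ D hF a u ω0 r ρ hr hρ T hT
  have hn : (0 : ℝ) ≤ n := Nat.cast_nonneg n
  -- coordinates
  have hc1 : ∀ ω ∈ T, ∀ i, |(n : ℝ) * D ω i - n * D ω0 i| ≤ r := by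
    intro ω hω i
    have h1 := norm_le_pi_norm (D ω - D ω0) i
    have h2 : |(n : ℝ) * D ω i - n * D ω0 i| = n * ‖(D ω - D ω0) i‖ := by
      rw [← mul_sub, abs_mul, abs_of_nonneg hn, Real.norm_eq_abs, Pi.sub_apply]
    rw [h2]
    exact (mul_le_mul_of_nonneg_left h1 hn).trans (hT ω hω).1
  have hc2 : ∀ ω ∈ T, ∃ x : ℝ, ∀ i, |(n : ℝ) * D ω i - (n * a i + x * u i)| ≤ ρ := by
    intro ω hω
    obtain ⟨x, hx⟩ := (hT ω hω).2
    refine ⟨n * x, fun i => ?_⟩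
    have h1 := norm_le_pi_norm (D ω - (a + x • u)) i
    have h2 : |(n : ℝ) * D ω i - (n * a i + n * x * u i)| = n * ‖(D ω - (a + x • u)) i‖ := by
      rw [Pi.sub_apply, Pi.add_apply, Pi.smul_apply, smul_eq_mul, Real.norm_eq_abs,
        ← abs_of_nonneg hn, ← abs_mul, abs_of_nonneg hn]
      congr 1
      ring
    rw [h2]
    exact (mul_le_mul_of_nonneg_left h1 hn).trans hx
  have hfin : ∀ y : ℝ, y ≤ (2 * r + 2) * (13 * ρ) ^ d → y ≤ 4 * 13 ^ d * r * ρ ^ d := by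
    intro y hy
    refine hy.trans ?_
    rw [mul_pow]
    have h1 : 0 ≤ (13 : ℝ) ^ d * ρ ^ d := by positivity
    calc (2 * r + 2) * ((13 : ℝ) ^ d * ρ ^ d) ≤ (4 * r) * ((13 : ℝ) ^ d * ρ ^ d) :=
          mul_le_mul_of_nonneg_right (by linarith) h1
      _ = 4 * 13 ^ d * r * ρ ^ d := by ring
  by_cases hu : ∀ i, u i = 0
  · apply hfin
    have h1 : (T.card : ℝ) ≤ (13 * ρ) ^ d := by
      refine card_loc hF hρ T fun ω hω ω' hω' i => ?_
      obtain ⟨x, hx⟩ := hc2 ω hω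
      obtain ⟨x', hx'⟩ := hc2 ω' hω'
      have h2 := abs_le.1 (hx i)
      have h3 := abs_le.1 (hx' i)
      rw [hu i, mul_zero] at h2 h3
      rw [abs_le]
      constructor <;> linarith [h2.1, h2.2, h3.1, h3.2]
    refine h1.trans ?_
    have h2 : 0 ≤ (13 * ρ) ^ d := by positivity
    nlinarith
  · push Not at hu
    obtain ⟨i1, hi1⟩ := hu
    have : Nonempty (Fin d) := ⟨i1⟩
    obtain ⟨i0, hi0⟩ := Finite.exists_max fun i => |u i|
    apply hfin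
    obtain ⟨I, hI⟩ : ∃ I : Finset ℤ,
        I = Finset.Icc ⌊(n : ℝ) * D ω0 i0 - r⌋ ⌊(n : ℝ) * D ω0 i0 + r⌋ := ⟨_, rfl⟩
    have hmap : ∀ ω ∈ T, ⌊(n : ℝ) * D ω i0⌋ ∈ I := by
      intro ω hω
      rw [hI, Finset.mem_Icc]
      have h1 := abs_le.1 (hc1 ω hω i0)
      exact ⟨Int.floor_le_floor (by linarith [h1.1]), Int.floor_le_floor (by linarith [h1.2])⟩
    have hIc : (I.card : ℝ) ≤ 2 * r + 2 := by
      rw [hI, Int.card_Icc]
      have h1 : ⌊(n : ℝ) * D ω0 i0 - r⌋ ≤ ⌊(n : ℝ) * D ω0 i0 + r⌋ :=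
        Int.floor_le_floor (by linarith)
      have h2 : (((⌊(n : ℝ) * D ω0 i0 + r⌋ + 1 - ⌊(n : ℝ) * D ω0 i0 - r⌋).toNat : ℕ) : ℝ) =
          (⌊(n : ℝ) * D ω0 i0 + r⌋ : ℝ) + 1 - ⌊(n : ℝ) * D ω0 i0 - r⌋ := by
        have h3 : (((⌊(n : ℝ) * D ω0 i0 + r⌋ + 1 - ⌊(n : ℝ) * D ω0 i0 - r⌋).toNat : ℕ) : ℤ) =
            ⌊(n : ℝ) * D ω0 i0 + r⌋ + 1 - ⌊(n : ℝ) * D ω0 i0 - r⌋ :=
          Int.toNat_of_nonneg (by omega)
        exact_mod_cast congrArg (Int.cast : ℤ → ℝ) h3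
      rw [h2]
      have h4 := Int.floor_le ((n : ℝ) * D ω0 i0 + r)
      have h5 := Int.lt_floor_add_one ((n : ℝ) * D ω0 i0 - r)
      linarith
    have hfib : ∀ c : ℤ, ((T.filter fun ω => ⌊(n : ℝ) * D ω i0⌋ = c).card : ℝ) ≤
        (13 * ρ) ^ d := by
      intro c
      refine card_loc hF hρ _ fun ω hω ω' hω' i => ?_
      rw [Finset.mem_filter] at hω hω'
      obtain ⟨x, hx⟩ := hc2 ω hω.1
      obtain ⟨x', hx'⟩ := hc2 ω' hω'.1
      have h1 : |(n : ℝ) * D ω i0 - n * D ω' i0| < 1 :=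
        Int.abs_sub_lt_one_of_floor_eq_floor (hω.2.trans hω'.2.symm)
      have h2 : |(x - x') * u i0| ≤ 1 + 2 * ρ := by
        have a1 := abs_le.1 (hx i0)
        have a2 := abs_le.1 (hx' i0)
        have a3 := abs_lt.1 h1
        rw [sub_mul, abs_le]
        constructor <;> linarith [a1.1, a1.2, a2.1, a2.2, a3.1, a3.2]
      have h3 : |(x - x') * u i| ≤ 1 + 2 * ρ := by
        rw [abs_mul] at h2 ⊢
        exact (mul_le_mul_of_nonneg_left (hi0 i) (abs_nonneg _)).trans h2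
      have a1 := abs_le.1 (hx i)
      have a2 := abs_le.1 (hx' i)
      rw [sub_mul] at h3
      have a3 := abs_le.1 h3
      rw [abs_le]
      constructor <;> linarith [a1.1, a1.2, a2.1, a2.2, a3.1, a3.2]
    have h1 : T.card = ∑ c ∈ I, (T.filter fun ω => ⌊(n : ℝ) * D ω i0⌋ = c).card :=
      Finset.card_eq_sum_card_fiberwise hmap
    have h2 : (T.card : ℝ) = ∑ c ∈ I, ((T.filter fun ω => ⌊(n : ℝ) * D ω i0⌋ = c).card : ℝ) := by
      rw [h1]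
      push_cast
      rfl
    rw [h2]
    calc ∑ c ∈ I, ((T.filter fun ω => ⌊(n : ℝ) * D ω i0⌋ = c).card : ℝ)
        ≤ ∑ _c ∈ I, (13 * ρ) ^ d := Finset.sum_le_sum fun c _ => hfib c
      _ = I.card * (13 * ρ) ^ d := by rw [Finset.sum_const, nsmul_eq_mul]
      _ ≤ (2 * r + 2) * (13 * ρ) ^ d := mul_le_mul_of_nonneg_right hIc (by positivity)

end Pool.Agent.Y484.HK
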